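import Mathlib

/-! Periodic beams observed along lines of integer speed: the inverse inequality fails for every
finite family of concurrent lines. -/

namespace Pool.Agent.Results.MP_8d8cf3_an.ConcurrentLines

open Complex Finset

/-- The solution of the periodic beam equation with coefficients `cp = (c_k^+)`, `cm = (c_k^-)`. -/
noncomputable def u (cp cm : ℤ → ℂ) (t x : ℝ) : ℂ :=
  cp 0 + cm 0 * (t : ℂ) + ∑' k : ℤ, if k = 0 then 0 else
    (cp k * cexp (I * ((k : ℂ) ^ 2 * (t : ℂ))) + cm k * cexp (-(I * ((k : ℂ) ^ 2 * (t : ℂ))))) *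
      cexp (I * ((k : ℂ) * (x : ℂ)))

/-- The inverse inequality for the lines `t ↦ (t_i + t, x_i - a_i t)`, `p i = (t_i, x_i)`, and the
observation time `T`, tested on finitely supported coefficient sequences only. -/
def Inverse {m : ℕ} (a : Fin m → ℤ) (p : Fin m → ℝ × ℝ) (T : ℝ) : Prop :=
  ∃ α : ℝ, ∀ cp cm : ℤ →₀ ℂ,
    (∑ k ∈ cp.support, ‖cp k‖ ^ 2) + (∑ k ∈ cm.support, ‖cm k‖ ^ 2) ≤
      α * ∑ i, ∫ t in (0 : ℝ)..T, ‖u cp cm ((p i).1 + t) ((p i).2 - (a i : ℝ) * t)‖ ^ 2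

/-- the oscillation `e^{i (k² - a k) s}` -/
noncomputable def f (a : ℤ) (s : ℝ) (k : ℤ) : ℂ :=
  cexp (I * ((((k : ℝ) ^ 2 - (a : ℝ) * (k : ℝ)) * s : ℝ) : ℂ))

lemma norm_f (a : ℤ) (s : ℝ) (k : ℤ) : ‖f a s k‖ = 1 := by
  unfold f
  rw [mul_comm]
  exact Complex.norm_exp_ofReal_mul_I _

lemma f_refl (a : ℤ) (s : ℝ) (k : ℤ) : f a s (a - k) = f a s k := by
  unfold f
  congr 3
  push_cast
  ring

lemma sum_neg_eq (a : ℤ) (s : ℝ) (N : ℕ) :
    ∑ k ∈ Icc (-(N : ℤ)) (-1), f a s k = ∑ k ∈ Icc (a + 1) (a + N), f a s k := by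
  apply Finset.sum_bij' (fun k _ => a - k) (fun k _ => a - k)
  · intro k hk
    rw [mem_Icc] at hk ⊢
    omega
  · intro k hk
    rw [mem_Icc] at hk ⊢
    omega
  · intro k _
    ring
  · intro k _
    ring
  · intro k _
    exact (f_refl a s k).symm

lemma norm_diff_le (a : ℤ) (s : ℝ) (N : ℕ) :
    ‖∑ k ∈ Icc 1 (N : ℤ), f a s k - ∑ k ∈ Icc (-(N : ℤ)) (-1), f a s k‖ ≤ 2 * |(a : ℝ)| := by
  rw [sum_neg_eq, ← Finset.sum_sdiff_sub_sum_sdiff]
  have key : ∀ S : Finset ℤ, ‖∑ k ∈ S, f a s k‖ ≤ (S.card : ℝ) := by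
    intro S
    calc ‖∑ k ∈ S, f a s k‖ ≤ ∑ k ∈ S, ‖f a s k‖ := norm_sum_le _ _
      _ = (S.card : ℝ) := by simp [norm_f]
  have c1 : ((Icc 1 (N : ℤ) \ Icc (a + 1) (a + N)).card : ℝ) ≤ |(a : ℝ)| := by
    have h : (Icc 1 (N : ℤ) \ Icc (a + 1) (a + N)).card ≤ a.natAbs := by
      have hsub : Icc 1 (N : ℤ) \ Icc (a + 1) (a + N) ⊆ Icc 1 a ∪ Icc (a + N + 1) N := by
        intro k hk
        rw [mem_sdiff, mem_Icc, mem_Icc] at hk
        rw [mem_union, mem_Icc, mem_Icc]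
        omega
      calc _ ≤ (Icc 1 a ∪ Icc (a + N + 1) (N : ℤ)).card := card_le_card hsub
        _ ≤ (Icc 1 a).card + (Icc (a + N + 1) (N : ℤ)).card := card_union_le _ _
        _ ≤ a.natAbs := by
          rw [Int.card_Icc, Int.card_Icc]
          omega
    have h2 : (a.natAbs : ℝ) = |(a : ℝ)| := by
      rw [← Int.cast_abs, Int.abs_eq_natAbs]
      simp
    rw [← h2]
    exact_mod_cast h
  have c2 : ((Icc (a + 1) (a + N) \ Icc 1 (N : ℤ)).card : ℝ) ≤ |(a : ℝ)| := by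
    have h : (Icc (a + 1) (a + N) \ Icc 1 (N : ℤ)).card ≤ a.natAbs := by
      have hsub : Icc (a + 1) (a + N) \ Icc 1 (N : ℤ) ⊆ Icc (a + 1) 0 ∪ Icc (N + 1 : ℤ) (a + N) := by
        intro k hk
        rw [mem_sdiff, mem_Icc, mem_Icc] at hk
        rw [mem_union, mem_Icc, mem_Icc]
        omega
      calc _ ≤ (Icc (a + 1) 0 ∪ Icc (N + 1 : ℤ) (a + N)).card := card_le_card hsub
        _ ≤ (Icc (a + 1) 0).card + (Icc (N + 1 : ℤ) (a + N)).card := card_union_le _ _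
        _ ≤ a.natAbs := by
          rw [Int.card_Icc, Int.card_Icc]
          omega
    have h2 : (a.natAbs : ℝ) = |(a : ℝ)| := by
      rw [← Int.cast_abs, Int.abs_eq_natAbs]
      simp
    rw [← h2]
    exact_mod_cast h
  calc _ ≤ ‖∑ k ∈ Icc 1 (N : ℤ) \ Icc (a + 1) (a + N), f a s k‖ +
        ‖∑ k ∈ Icc (a + 1) (a + N) \ Icc 1 (N : ℤ), f a s k‖ := norm_sub_le _ _
    _ ≤ |(a : ℝ)| + |(a : ℝ)| := add_le_add ((key _).trans c1) ((key _).trans c2)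
    _ = 2 * |(a : ℝ)| := by ring

/-- the sign pattern -/
noncomputable def sg (N : ℕ) (k : ℤ) : ℂ :=
  if k ∈ Icc 1 (N : ℤ) then 1 else if k ∈ Icc (-(N : ℤ)) (-1) then -1 else 0

lemma sg_zero (N : ℕ) : sg N 0 = 0 := by
  unfold sg
  simp

/-- the coefficients: `sgn(k)` for `1 ≤ |k| ≤ N`, moved to the common point `(t*, x*)` -/
noncomputable def cN (N : ℕ) (ts xs : ℝ) : ℤ →₀ ℂ :=
  Finsupp.onFinset (Icc 1 (N : ℤ) ∪ Icc (-(N : ℤ)) (-1))
    (fun k => sg N k * cexp (-(I * ((k : ℂ) ^ 2 * (ts : ℂ) + (k : ℂ) * (xs : ℂ)))))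
    (by
      intro k hk
      rw [mem_union]
      by_contra hcon
      push Not at hcon
      apply hk
      unfold sg
      rw [if_neg hcon.1, if_neg hcon.2, zero_mul])

lemma cN_apply (N : ℕ) (ts xs : ℝ) (k : ℤ) : cN N ts xs k =
    sg N k * cexp (-(I * ((k : ℂ) ^ 2 * (ts : ℂ) + (k : ℂ) * (xs : ℂ)))) := rfl

lemma disj (N : ℕ) : Disjoint (Icc 1 (N : ℤ)) (Icc (-(N : ℤ)) (-1)) := by
  rw [Finset.disjoint_left]
  intro k h1 h2
  rw [mem_Icc] at h1 h2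
  omega

lemma norm_cN (N : ℕ) (ts xs : ℝ) (k : ℤ) (hk : k ∈ Icc 1 (N : ℤ) ∪ Icc (-(N : ℤ)) (-1)) :
    ‖cN N ts xs k‖ = 1 := by
  rw [cN_apply, norm_mul]
  have h1 : ‖cexp (-(I * ((k : ℂ) ^ 2 * (ts : ℂ) + (k : ℂ) * (xs : ℂ))))‖ = 1 := by
    have : -(I * ((k : ℂ) ^ 2 * (ts : ℂ) + (k : ℂ) * (xs : ℂ))) =
        ((-((k : ℝ) ^ 2 * ts + (k : ℝ) * xs) : ℝ) : ℂ) * I := by
      push_cast
      ring
    rw [this]
    exact Complex.norm_exp_ofReal_mul_I _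
  rw [h1, mul_one]
  unfold sg
  split_ifs with h h'
  · simp
  · simp
  · rw [mem_union] at hk
    tauto

lemma mass_cN (N : ℕ) (ts xs : ℝ) : ∑ k ∈ (cN N ts xs).support, ‖cN N ts xs k‖ ^ 2 = 2 * N := by
  have hs : (cN N ts xs).support = Icc 1 (N : ℤ) ∪ Icc (-(N : ℤ)) (-1) := by
    apply Finset.Subset.antisymm
    · exact Finsupp.support_onFinset_subset
    · intro k hk
      rw [Finsupp.mem_support_iff]
      intro h0
      have := norm_cN N ts xs k hk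
      rw [h0, norm_zero] at this
      exact zero_ne_one this
  rw [hs]
  rw [Finset.sum_congr rfl (fun k hk => by rw [norm_cN N ts xs k hk])]
  rw [Finset.sum_const, card_union_of_disjoint (disj N), Int.card_Icc, Int.card_Icc]
  have : ((N : ℤ) + 1 - 1).toNat + (-1 + 1 - -(N : ℤ)).toNat = 2 * N := by omega
  rw [this]
  simp

/-- the solution along a line through the common point -/
lemma u_line (N : ℕ) (ts xs : ℝ) (a : ℤ) (t0 x0 : ℝ) (h : x0 + a * t0 = xs + a * ts) (t : ℝ) :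
    u (cN N ts xs) (0 : ℤ →₀ ℂ) (t0 + t) (x0 - (a : ℝ) * t) =
      ∑ k ∈ Icc 1 (N : ℤ), f a (t0 + t - ts) k - ∑ k ∈ Icc (-(N : ℤ)) (-1), f a (t0 + t - ts) k := by
  unfold u
  have h0 : cN N ts xs 0 = 0 := by rw [cN_apply, sg_zero, zero_mul]
  rw [h0]
  simp only [Finsupp.coe_zero, Pi.zero_apply, zero_mul, add_zero, zero_add]
  have hterm : ∀ k : ℤ, (if k = 0 then (0 : ℂ) else
      cN N ts xs k * cexp (I * ((k : ℂ) ^ 2 * ((t0 + t : ℝ) : ℂ))) *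
        cexp (I * ((k : ℂ) * ((x0 - (a : ℝ) * t : ℝ) : ℂ)))) = sg N k * f a (t0 + t - ts) k := by
    intro k
    split_ifs with hk
    · rw [hk, sg_zero, zero_mul]
    · rw [cN_apply, mul_assoc, mul_assoc, ← Complex.exp_add, ← Complex.exp_add]
      unfold f
      congr 2
      have hx : (x0 : ℂ) = (xs : ℂ) + (a : ℂ) * (ts : ℂ) - (a : ℂ) * (t0 : ℂ) := by
        have : x0 = xs + a * ts - a * t0 := by linarith
        rw [this]
        push_cast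
        ring
      push_cast
      rw [hx]
      ring
  rw [tsum_congr hterm]
  rw [tsum_eq_sum (s := Icc 1 (N : ℤ) ∪ Icc (-(N : ℤ)) (-1))
    (by
      intro k hk
      rw [mem_union] at hk
      push Not at hk
      unfold sg
      rw [if_neg hk.1, if_neg hk.2, zero_mul])]
  rw [sum_union (disj N)]
  have e1 : ∑ k ∈ Icc 1 (N : ℤ), sg N k * f a (t0 + t - ts) k =
      ∑ k ∈ Icc 1 (N : ℤ), f a (t0 + t - ts) k := by
    apply Finset.sum_congr rfl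
    intro k hk
    unfold sg
    rw [if_pos hk, one_mul]
  have e2 : ∑ k ∈ Icc (-(N : ℤ)) (-1), sg N k * f a (t0 + t - ts) k =
      - ∑ k ∈ Icc (-(N : ℤ)) (-1), f a (t0 + t - ts) k := by
    rw [← Finset.sum_neg_distrib]
    apply Finset.sum_congr rfl
    intro k hk
    unfold sg
    rw [if_neg (fun h' => (Finset.disjoint_left.1 (disj N)) h' hk), if_pos hk]
    ring
  rw [e1, e2]
  exact (sub_eq_add_neg _ _).symm

theorem fails {m : ℕ} (a : Fin m → ℤ) (p : Fin m → ℝ × ℝ) (T : ℝ) (hT : 0 < T) (ts xs : ℝ)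
    (h : ∀ i, (p i).2 + (a i : ℝ) * (p i).1 = xs + (a i : ℝ) * ts) : ¬ Inverse a p T := by
  rintro ⟨α, hα⟩
  obtain ⟨N, hN⟩ := exists_nat_gt (|α| * ∑ i, (2 * |(a i : ℝ)|) ^ 2 * T)
  have h1 := hα (cN N ts xs) 0
  rw [mass_cN] at h1
  simp only [Finsupp.support_zero, Finset.sum_empty, add_zero] at h1
  have h2 : ∀ i, |∫ t in (0 : ℝ)..T,
      ‖u (cN N ts xs) (0 : ℤ →₀ ℂ) ((p i).1 + t) ((p i).2 - (a i : ℝ) * t)‖ ^ 2| ≤
      (2 * |(a i : ℝ)|) ^ 2 * T := by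
    intro i
    have := intervalIntegral.norm_integral_le_of_norm_le_const (a := (0 : ℝ)) (b := T)
      (f := fun t => ‖u (cN N ts xs) (0 : ℤ →₀ ℂ) ((p i).1 + t) ((p i).2 - (a i : ℝ) * t)‖ ^ 2)
      (C := (2 * |(a i : ℝ)|) ^ 2) (by
        intro t _
        rw [u_line N ts xs (a i) (p i).1 (p i).2 (h i) t, Real.norm_eq_abs, abs_of_nonneg (by positivity)]
        exact pow_le_pow_left₀ (norm_nonneg _) (norm_diff_le _ _ _) 2)
    rw [sub_zero, abs_of_pos hT] at this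
    exact this
  have h3 : α * ∑ i, ∫ t in (0 : ℝ)..T,
      ‖u (cN N ts xs) (0 : ℤ →₀ ℂ) ((p i).1 + t) ((p i).2 - (a i : ℝ) * t)‖ ^ 2 ≤
      |α| * ∑ i, (2 * |(a i : ℝ)|) ^ 2 * T := by
    calc _ ≤ |α * ∑ i, ∫ t in (0 : ℝ)..T,
          ‖u (cN N ts xs) (0 : ℤ →₀ ℂ) ((p i).1 + t) ((p i).2 - (a i : ℝ) * t)‖ ^ 2| := le_abs_self _
      _ = |α| * |∑ i, ∫ t in (0 : ℝ)..T,
          ‖u (cN N ts xs) (0 : ℤ →₀ ℂ) ((p i).1 + t) ((p i).2 - (a i : ℝ) * t)‖ ^ 2| := abs_mul _ _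
      _ ≤ |α| * ∑ i, (2 * |(a i : ℝ)|) ^ 2 * T := by
        apply mul_le_mul_of_nonneg_left _ (abs_nonneg _)
        exact (Finset.abs_sum_le_sum_abs _ _).trans (Finset.sum_le_sum (fun i _ => h2 i))
  have h4 : (0 : ℝ) ≤ N := Nat.cast_nonneg _
  have h5 : (2 * (N : ℝ)) ≤ |α| * ∑ i, (2 * |(a i : ℝ)|) ^ 2 * T := h1.trans h3
  linarith

/-- (1) For every finite family of integer speeds and every choice of points such that the lines
pass through one common point, the inverse inequality fails. (2) Negated form of the question: for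
every `m ≥ 3` it fails for some distinct nonzero integers. (3) For two lines with distinct integer
speeds it always fails. -/
theorem result :
    (∀ (m : ℕ) (a : Fin m → ℤ) (p : Fin m → ℝ × ℝ) (T : ℝ), 0 < T →
      (∃ q : ℝ × ℝ, ∀ i, (p i).2 + (a i : ℝ) * (p i).1 = q.2 + (a i : ℝ) * q.1) →
      ¬ Inverse a p T) ∧
    (∀ m : ℕ, 3 ≤ m → ∃ a : Fin m → ℤ, Function.Injective a ∧ (∀ i, a i ≠ 0) ∧
      ∃ p : Fin m → ℝ × ℝ, ∃ T : ℝ, 0 < T ∧ ¬ Inverse a p T) ∧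
    (∀ a : Fin 2 → ℤ, a 0 ≠ a 1 → ∀ (p : Fin 2 → ℝ × ℝ) (T : ℝ), 0 < T → ¬ Inverse a p T) := by
  refine ⟨?_, ?_, ?_⟩
  · rintro m a p T hT ⟨q, hq⟩
    exact fails a p T hT q.1 q.2 hq
  · intro m _
    refine ⟨fun i => (i : ℤ) + 1, ?_, ?_, fun _ => (0, 0), 1, one_pos, ?_⟩
    · intro i j hij
      have : (i : ℤ) + 1 = (j : ℤ) + 1 := hij
      exact Fin.ext (by omega)
    · intro i
      show (i : ℤ) + 1 ≠ 0
      omega
    · apply fails _ _ _ one_pos 0 0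
      intro i
      simp
  · intro a ha p T hT
    have hne : ((a 0 : ℝ) - (a 1 : ℝ)) ≠ 0 := by
      rw [sub_ne_zero]
      exact_mod_cast ha
    set ts : ℝ := (((p 0).2 + (a 0 : ℝ) * (p 0).1) - ((p 1).2 + (a 1 : ℝ) * (p 1).1)) /
      ((a 0 : ℝ) - (a 1 : ℝ)) with hts
    have h1 : ts * ((a 0 : ℝ) - (a 1 : ℝ)) =
        ((p 0).2 + (a 0 : ℝ) * (p 0).1) - ((p 1).2 + (a 1 : ℝ) * (p 1).1) := by
      rw [hts]
      exact div_mul_cancel₀ _ hne
    apply fails a p T hT ts ((p 0).2 + (a 0 : ℝ) * (p 0).1 - (a 0 : ℝ) * ts)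
    intro i
    fin_cases i
    · show (p 0).2 + (a 0 : ℝ) * (p 0).1 = (p 0).2 + (a 0 : ℝ) * (p 0).1 - (a 0 : ℝ) * ts +
        (a 0 : ℝ) * ts
      ring
    · show (p 1).2 + (a 1 : ℝ) * (p 1).1 = (p 0).2 + (a 0 : ℝ) * (p 0).1 - (a 0 : ℝ) * ts +
        (a 1 : ℝ) * ts
      linarith

end Pool.Agent.Results.MP_8d8cf3_an.ConcurrentLines
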